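import Pool.Agent.X15.SysS.FinP

/-!
# Primes `a q + k` at primes `q` in bounded prime tuples, for almost all `k`

Let `a ≥ 1` be an integer (`a = 2` in the problem), `S` a finite set of integers and `m ≥ 0`. For almost all `k` without
local obstruction there are many primes `q` such that `a q + k` is prime, all `q + h`, `h ∈ H`, are prime, where `H` is a
set of `m` nonzero integers of bounded size, and all `q + h + b`, `h ∈ {0} ∪ H`, `b ∈ S`, have boundedly many prime
factors.

The theorem is a case of a theorem of the starting files (`Pool.Agent.TH882.FinG2`).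
-/

set_option autoImplicit false

open Finset Filter Topology

namespace Pool.Agent.Results.MP_39a890_nt.AlmostAllConstantsTuples

/-- No local obstruction: for every prime `l` there is an integer `y` such that `l` divides neither `y` nor `a y + k` nor
any `y + b`, `b ∈ S`. -/
def LocallyPossible (a : ℕ) (S : Finset ℤ) (k : ℕ) : Prop :=
  ∀ l : ℕ, l.Prime → ∃ y : ℤ, ¬ (l : ℤ) ∣ y ∧ ¬ (l : ℤ) ∣ a * y + k ∧ ∀ b ∈ S, ¬ (l : ℤ) ∣ y + b

/-- The primes `q ≤ x` for which `a q + k` and all `q + h`, `h ∈ H`, are prime and all `q + h + b`, `h ∈ {0} ∪ H`,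
`b ∈ S`, are positive with at most `r` prime factors (with multiplicity). -/
def solutions (a : ℕ) (H S : Finset ℤ) (r k x : ℕ) : Set ℕ :=
  {q : ℕ | q ≤ x ∧ q.Prime ∧ (a * q + k).Prime ∧ (∀ h ∈ H, ∃ p : ℕ, p.Prime ∧ (p : ℤ) = q + h) ∧
    ∀ h ∈ insert 0 H, ∀ b ∈ S, 0 < (q : ℤ) + h + b ∧
      ArithmeticFunction.cardFactors ((q : ℤ) + h + b).toNat ≤ r}

/-- The integers `1 ≤ k ≤ κ x` without local obstruction such that for no set `H` of `m` nonzero integers of absolute value
at most `C` there are at least `x / (log x) ^ D` such primes. -/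
def exceptions (a : ℕ) (S : Finset ℤ) (m r C D κ x : ℕ) : Set ℕ :=
  {k : ℕ | (1 ≤ k ∧ k ≤ κ * x ^ 1) ∧ LocallyPossible a S k ∧
    ¬ ∃ H : Finset ℤ, H.card = m ∧ (∀ h ∈ H, h ≠ 0 ∧ |h| ≤ C) ∧
      (x : ℝ) / Real.log x ^ D ≤ ((solutions a H S r k x).ncard : ℝ)}

/-- **Primes `a q + k` at primes in bounded tuples, for almost all `k`.** Let `a ≥ 1`, `S` a finite set of integers and
`m ≥ 0`. There are `r`, `C`, `D` such that for every `κ` and all `1 ≤ k ≤ κ x` without local obstruction, with at most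
`o(x)` exceptions as `x → ∞`, there is a set `H` of `m` nonzero integers of absolute value at most `C` such that for at
least `x / (log x) ^ D` primes `q ≤ x` the number `a q + k` and all `q + h`, `h ∈ H`, are prime and all `q + h + b`,
`h ∈ {0} ∪ H`, `b ∈ S`, have at most `r` prime factors. -/
theorem result (a : ℕ) (ha : 1 ≤ a) (S : Finset ℤ) (m : ℕ) : ∃ r C D : ℕ, ∀ κ : ℕ,
    Tendsto (fun x : ℕ => ((exceptions a S m r C D κ x).ncard : ℝ) / x) atTop (𝓝 0) := by
  have ha0 : (a : ℤ) ≠ 0 := by omega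
  have hgd : (Polynomial.C (a : ℤ) * Polynomial.X).natDegree = 1 := Polynomial.natDegree_C_mul_X _ ha0
  obtain ⟨r, C, D, h⟩ := Pool.Agent.X15.SysS.FinP.finp (Polynomial.C (a : ℤ) * Polynomial.X)
    (by rw [hgd]) (by rw [Polynomial.leadingCoeff_C_mul_X]; omega) (fun n => a * n)
    (fun y => a * y) (fun n => by simp) (fun y => by simp) S m
  refine ⟨r, C, D, fun κ => ?_⟩
  have h1 := h κ
  rw [hgd] at h1
  simp only [pow_one] at h1
  refine h1.congr fun x => ?_
  have : Pool.Agent.X15.SysS.FinP.Ex (fun n => a * n) (fun y => (a : ℤ) * y) 1 S m r C D κ x =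
      exceptions a S m r C D κ x := rfl
  rw [this]

end Pool.Agent.Results.MP_39a890_nt.AlmostAllConstantsTuples
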