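import Pool.Agent.X55.Fam.LinCor

/-!
# Almost prime pairs `n`, `2 n - 1` with prescribed digital functions in short intervals

Let `S` be a strongly `b`-additive function with values in a finite abelian group (for example the sum of the digits in
base `b`, or any vector of numbers of occurrences of nonzero digits, modulo some integers), which is not degenerate:
no nontrivial character of the group makes it a function of the residue of `n` modulo `b - 1`. We consider the pairs `n`, `2 n - 1` for
the integers `n` with `S n = g` in ARBITRARY short intervals `(M, M + H]`.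
* If `M + H ≤ H ^ B`, where `B` is arbitrary, the number of the `n` for which all the values have a bounded number of prime
  factors, all greater than `H ^ δ`, has the expected order of magnitude.
* The number of the `n` for which all of them are primes is at most of this order.
* The number of the `n` for which they have no prime factor up to `y` is given by an asymptotic formula.

The proof combines the fundamental lemma of the sieve, Mertens' theorem for polynomials and the exponential sums of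
digital functions (in the starting files), over the blocks of a short interval.
-/

set_option autoImplicit false

namespace Pool.Agent.Results.MP_39a890_nt.DigitalFunctions

open Finset Polynomial

/-- `S` is strongly `b`-additive (`S (b n + d) = S n + S d` for the digits `d < b`), and no nontrivial character of the
group maps `S n`, for all digits `n`, to the powers `z ^ n` of a number `z` with `z ^ (b - 1) = 1` -/
def Digital {G : Type} [AddCommGroup G] (b : ℕ) (S : ℕ → G) : Prop :=
  (∀ n d : ℕ, d < b → S (b * n + d) = S n + S d) ∧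
  ∀ χ : AddChar G ℂ, χ ≠ 0 → ¬ (χ (S 1) ^ (b - 1) = 1 ∧ ∀ d < b, χ (S d) = χ (S 1) ^ d)

/-- `m ≠ 0` has at most `r` prime factors, counted with multiplicity, all of them greater than `x`. -/
def AlmostPrime (r : ℕ) (x : ℝ) (m : ℕ) : Prop :=
  m ≠ 0 ∧ m.primeFactorsList.length ≤ r ∧ ∀ q : ℕ, q.Prime → q ∣ m → x < q

/-- the number of the `n` in `(M, M + H]` with the property `R` for which `n`, `(2 * (n : ℤ) - 1).natAbs` are almost primes -/
noncomputable def almost (r : ℕ) (x : ℝ) (M H : ℕ) (R : ℕ → Prop) : ℕ :=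
  Set.ncard {n : ℕ | M < n ∧ n ≤ M + H ∧ R n ∧ AlmostPrime r x n ∧ AlmostPrime r x ((2 * (n : ℤ) - 1).natAbs)}

/-- the number of the `n` in `(M, M + H]` with the property `R` for which `n`, `(2 * (n : ℤ) - 1).natAbs` are primes -/
noncomputable def primes (M H : ℕ) (R : ℕ → Prop) : ℕ :=
  Set.ncard {n : ℕ | M < n ∧ n ≤ M + H ∧ R n ∧ n.Prime ∧ ((2 * (n : ℤ) - 1).natAbs).Prime}

/-- the number of the `n` in `(M, M + H]` with the property `R` for which `n`, `(2 * (n : ℤ) - 1).natAbs` have no prime factor up to `y` -/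
noncomputable def rough (y M H : ℕ) (R : ℕ → Prop) : ℕ :=
  Set.ncard {n : ℕ | M < n ∧ n ≤ M + H ∧ R n ∧ ∀ q : ℕ, q.Prime → q ≤ y → ¬ q ∣ n ∧ ¬ q ∣ (2 * (n : ℤ) - 1).natAbs}

/-- the product over the primes `q ≤ y` of `1 - ν(q) / q`, where `ν(q)` is the number of the residues `a` modulo `q` for
which one of these values is divisible by `q` -/
noncomputable def V (y : ℕ) : ℝ :=
  ∏ q ∈ (Icc 1 y).filter Nat.Prime, (1 - (Set.ncard {a : ℕ | a < q ∧ (q ∣ a ∨ q ∣ (2 * (a : ℤ) - 1).natAbs)} : ℝ) / q)

/-- the bounds for the interval `(M, M + H]` and the property `R`, with the expected number `N` -/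
def Bounds (P r : ℕ) (δ c C : ℝ) (B M H : ℕ) (R : ℕ → Prop) (N : ℝ) : Prop :=
  (M + H ≤ P ^ B → c * N / Real.log P ^ 2 ≤ almost r ((P : ℝ) ^ δ) M H R) ∧ (primes M H R : ℝ) ≤ C * N / Real.log P ^ 2

/-- the asymptotic formula for the interval `(M, M + H]` and the property `R`, with the expected number `N` -/
def Rough (η : ℝ) (M H y : ℕ) (R : ℕ → Prop) (N : ℝ) : Prop :=
  |(rough y M H R : ℝ) - N * V y| ≤ η * (N * V y)

/-- the polynomials -/
noncomputable def f : Fin 2 → ℤ[X] := ![C 1 * X + C 0, C 2 * X + C (-1)]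

/-- their values -/
def G : Fin 2 → ℤ → ℤ := ![fun n => 1 * n + 0, fun n => 2 * n + (-1)]

/-- the values at natural numbers -/
def F : Fin 2 → ℕ → ℕ := ![fun n => n, fun n => (2 * (n : ℤ) - 1).natAbs]

lemma f_eval (i : Fin 2) (n : ℤ) : (f i).eval n = G i n := by
  fin_cases i <;> simp [f, G]

lemma f_deg (i : Fin 2) : (f i).natDegree = (![1, 1] : Fin 2 → ℕ) i := by
  fin_cases i
  · show (C 1 * X + C 0 : ℤ[X]).natDegree = 1
    exact natDegree_linear (by norm_num)
  · show (C 2 * X + C (-1) : ℤ[X]).natDegree = 1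
    exact natDegree_linear (by norm_num)

lemma f_sys : Pool.Agent.X55.Fam.Sys 2 f := by
  refine Pool.Agent.X55.Fam.Sys.mk' ?_ ?_ ?_ 2 ?_ ?_
  · intro i
    fin_cases i
    · show Irreducible (C 1 * X + C 0 : ℤ[X])
      exact Pool.Agent.X55.Fam.lin_irr _ _ (by norm_num) (fun d h1 h2 => isUnit_of_dvd_one (by have := dvd_add (h1.mul_left (1)) (h2.mul_left (-1)); norm_num at this; exact this))
    · show Irreducible (C 2 * X + C (-1) : ℤ[X])
      exact Pool.Agent.X55.Fam.lin_irr _ _ (by norm_num) (fun d h1 h2 => isUnit_of_dvd_one (by have := dvd_add (h1.mul_left (0)) (h2.mul_left (-1)); norm_num at this; exact this))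
  · intro i
    rw [f_deg]
    fin_cases i <;> norm_num
  · intro i j hij
    fin_cases i <;> fin_cases j <;>
      first
      | exact absurd rfl hij
      | exact Pool.Agent.X55.Fam.not_assoc 0 (by rw [f_eval, f_eval]; norm_num [G])
  · simp [Fin.sum_univ_succ, f_deg]
  · intro p hp hp2
    interval_cases p
    · exact absurd hp (by norm_num)
    · exact absurd hp (by norm_num)
    · exact ⟨1, fun i => by rw [f_eval]; fin_cases i <;> norm_num [G]⟩

lemma hF (i : Fin 2) (n : ℕ) : ((f i).eval (n : ℤ)).natAbs = F i n := by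
  rw [f_eval]
  fin_cases i
  · show (1 * (n : ℤ) + 0).natAbs = n
    rw [show (1 * (n : ℤ) + 0) = ((n : ℕ) : ℤ) by push_cast; ring, Int.natAbs_natCast]
  · show (2 * (n : ℤ) + (-1)).natAbs = (2 * (n : ℤ) - 1).natAbs
    first
    | (congr 1; ring)
    | congr 1

lemma conv {P r : ℕ} {δ c C : ℝ} {B M H : ℕ} {R : ℕ → Prop} {N : ℝ}
    (h : Pool.Agent.X55.Fam.Both F P r δ c C B M H R N) : Bounds P r δ c C B M H R N := by
  unfold Pool.Agent.X55.Fam.Both at h
  simpa [Bounds, almost, primes, AlmostPrime, F, Pool.Agent.X55.Fam.Good, Fin.forall_fin_succ] using h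

lemma convA {η : ℝ} {M H y : ℕ} {R : ℕ → Prop} {N : ℝ}
    (h : Pool.Agent.X55.Fam.Asym F η M H y R N) : Rough η M H y R N := by
  unfold Pool.Agent.X55.Fam.Asym at h
  simpa [Rough, rough, V, F, Fin.forall_fin_succ, Fin.exists_fin_succ] using h

theorem result : ∀ (G : Type) [AddCommGroup G] [Fintype G] (b : ℕ) (S : ℕ → G), 2 ≤ b → Digital b S →
    (∀ B : ℕ, ∃ (r : ℕ) (δ c C : ℝ) (H₀ : ℕ), 0 < δ ∧ 0 < c ∧ 0 < C ∧
      ∀ H : ℕ, H₀ ≤ H → ∀ (M : ℕ) (g : G), Bounds H r δ c C B M H (fun n => S n = g) (H / Fintype.card G)) ∧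
    (∀ η : ℝ, 0 < η → ∃ (δ : ℝ) (H₀ : ℕ), 0 < δ ∧
      ∀ H : ℕ, H₀ ≤ H → ∀ (M : ℕ) (g : G) (y : ℕ), 3 ≤ y → (y : ℝ) ≤ (H : ℝ) ^ δ →
      Rough η M H y (fun n => S n = g) (H / Fintype.card G)) := by
  intro G _ _ b S hb hS
  constructor
  · intro B
    obtain ⟨r, δ, c, C, H₀, hδ, hc, hC, h⟩ := Pool.Agent.X55.Fam.dig_cor b hb S hS.1 hS.2 f_sys F hF B
    exact ⟨r, δ, c, C, H₀, hδ, hc, hC, fun H hH M g => conv (h H hH M g)⟩
  · intro η hη
    obtain ⟨δ, H₀, hδ, h⟩ := Pool.Agent.X55.Fam.dig_corA b hb S hS.1 hS.2 f_sys F hF η hη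
    exact ⟨δ, H₀, hδ, fun H hH M g y hy hyH => convA (h H hH M g y hy hyH)⟩

end Pool.Agent.Results.MP_39a890_nt.DigitalFunctions
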