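import Pool.Agent.X220.FP.Cor
import Pool.Agent.X220.FP.Alg

/-!
# Almost prime pairs `n`, `2 n - 1` with prescribed fractional parts in short intervals

Let `P_1, …, P_s` be real polynomials of degree at most `k ≥ 1` whose vector of the coefficients of `x ^ k` is of finite
type: the distance of `h_1 α_1 + … + h_s α_s` to the nearest integer is at least `c₀ / |h| ^ τ` for all nonzero integral
vectors `h` (for example `α_1, …, α_s` are algebraic and `1, α_1, …, α_s` are linearly independent over the rational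
numbers). We consider the pairs `n`, `2 n - 1` for the integers `n` of an ARBITRARY short interval
`(M, M + H]` for which all the fractional parts of `P_i(n) - u_i` are less than `ρ_i`, where the `ρ_i` may be as small as
`H ^ (-δ)`.
* If `M + H ≤ H ^ B`, where `B` is arbitrary, the number of the `n` for which all the values have a bounded number of prime
  factors, all greater than `H ^ δ`, has the expected order of magnitude.
* The number of the `n` for which all of them are primes is at most of this order.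
* The number of the `n` for which they have no prime factor up to `y` is given by an asymptotic formula.

All this is uniform in the polynomials, in `M`, and in the boxes. The proof combines the fundamental lemma of the sieve,
Mertens' theorem for polynomials (in the starting files), Weyl's inequality, and Liouville's inequality for norms.
-/

set_option autoImplicit false

namespace Pool.Agent.Results.MP_39a890_nt.FractionalParts

open Finset Polynomial

/-- the vector `α` is of finite type, with the constants `c₀` and `τ` -/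
def FiniteType {s : ℕ} (c₀ : ℝ) (τ : ℕ) (α : Fin s → ℝ) : Prop :=
  ∀ h : Fin s → ℤ, h ≠ 0 → ∀ a : ℤ, c₀ ≤ (∑ i, |(h i : ℝ)|) ^ τ * |(∑ i, h i * α i) - a|

/-- all the fractional parts of `P_i(n) - u_i` are less than `ρ_i` -/
def InBox {s : ℕ} (P : Fin s → ℝ[X]) (u ρ : Fin s → ℝ) (n : ℕ) : Prop :=
  ∀ i, Int.fract ((P i).eval (n : ℝ) - u i) < ρ i

/-- `m ≠ 0` has at most `r` prime factors, counted with multiplicity, all of them greater than `x`. -/
def AlmostPrime (r : ℕ) (x : ℝ) (m : ℕ) : Prop :=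
  m ≠ 0 ∧ m.primeFactorsList.length ≤ r ∧ ∀ q : ℕ, q.Prime → q ∣ m → x < q

/-- the number of the `n` in `(M, M + H]` with the property `R` for which `n`, `(2 * (n : ℤ) - 1).natAbs` are almost primes -/
noncomputable def almost (r : ℕ) (x : ℝ) (M H : ℕ) (R : ℕ → Prop) : ℕ :=
  Set.ncard {n : ℕ | M < n ∧ n ≤ M + H ∧ R n ∧ AlmostPrime r x n ∧ AlmostPrime r x ((2 * (n : ℤ) - 1).natAbs)}

/-- the number of the `n` in `(M, M + H]` with the property `R` for which `n`, `(2 * (n : ℤ) - 1).natAbs` are primes -/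
noncomputable def primes (M H : ℕ) (R : ℕ → Prop) : ℕ :=
  Set.ncard {n : ℕ | M < n ∧ n ≤ M + H ∧ R n ∧ n.Prime ∧ ((2 * (n : ℤ) - 1).natAbs).Prime}

/-- the number of the `n` in `(M, M + H]` with the property `R` for which `n`, `(2 * (n : ℤ) - 1).natAbs` have no prime factor up to `y` -/
noncomputable def rough (y M H : ℕ) (R : ℕ → Prop) : ℕ :=
  Set.ncard {n : ℕ | M < n ∧ n ≤ M + H ∧ R n ∧ ∀ q : ℕ, q.Prime → q ≤ y → ¬ q ∣ n ∧ ¬ q ∣ (2 * (n : ℤ) - 1).natAbs}

/-- the product over the primes `q ≤ y` of `1 - ν(q) / q`, where `ν(q)` is the number of the residues `a` modulo `q` for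
which one of these values is divisible by `q` -/
noncomputable def V (y : ℕ) : ℝ :=
  ∏ q ∈ (Icc 1 y).filter Nat.Prime, (1 - (Set.ncard {a : ℕ | a < q ∧ (q ∣ a ∨ q ∣ (2 * (a : ℤ) - 1).natAbs)} : ℝ) / q)

/-- the bounds for the interval `(M, M + H]` and the property `R`, with the expected number `N` -/
def Bounds (P r : ℕ) (δ c C : ℝ) (B M H : ℕ) (R : ℕ → Prop) (N : ℝ) : Prop :=
  (M + H ≤ P ^ B → c * N / Real.log P ^ 2 ≤ almost r ((P : ℝ) ^ δ) M H R) ∧ (primes M H R : ℝ) ≤ C * N / Real.log P ^ 2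

/-- the asymptotic formula for the interval `(M, M + H]` and the property `R`, with the expected number `N` -/
def Rough (η : ℝ) (M H y : ℕ) (R : ℕ → Prop) (N : ℝ) : Prop :=
  |(rough y M H R : ℝ) - N * V y| ≤ η * (N * V y)

/-- the polynomials -/
noncomputable def f : Fin 2 → ℤ[X] := ![C 1 * X + C 0, C 2 * X + C (-1)]

/-- their values -/
def G : Fin 2 → ℤ → ℤ := ![fun n => 1 * n + 0, fun n => 2 * n + (-1)]

/-- the values at natural numbers -/
def F : Fin 2 → ℕ → ℕ := ![fun n => n, fun n => (2 * (n : ℤ) - 1).natAbs]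

lemma f_eval (i : Fin 2) (n : ℤ) : (f i).eval n = G i n := by
  fin_cases i <;> simp [f, G]

lemma f_deg (i : Fin 2) : (f i).natDegree = (![1, 1] : Fin 2 → ℕ) i := by
  fin_cases i
  · show (C 1 * X + C 0 : ℤ[X]).natDegree = 1
    exact natDegree_linear (by norm_num)
  · show (C 2 * X + C (-1) : ℤ[X]).natDegree = 1
    exact natDegree_linear (by norm_num)

lemma f_sys : Pool.Agent.X55.Fam.Sys 2 f := by
  refine Pool.Agent.X55.Fam.Sys.mk' ?_ ?_ ?_ 2 ?_ ?_
  · intro i
    fin_cases i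
    · show Irreducible (C 1 * X + C 0 : ℤ[X])
      exact Pool.Agent.X55.Fam.lin_irr _ _ (by norm_num) (fun d h1 h2 => isUnit_of_dvd_one (by have := dvd_add (h1.mul_left (1)) (h2.mul_left (-1)); norm_num at this; exact this))
    · show Irreducible (C 2 * X + C (-1) : ℤ[X])
      exact Pool.Agent.X55.Fam.lin_irr _ _ (by norm_num) (fun d h1 h2 => isUnit_of_dvd_one (by have := dvd_add (h1.mul_left (0)) (h2.mul_left (-1)); norm_num at this; exact this))
  · intro i
    rw [f_deg]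
    fin_cases i <;> norm_num
  · intro i j hij
    fin_cases i <;> fin_cases j <;>
      first
      | exact absurd rfl hij
      | exact Pool.Agent.X55.Fam.not_assoc 0 (by rw [f_eval, f_eval]; norm_num [G])
  · simp [Fin.sum_univ_succ, f_deg]
  · intro p hp hp2
    interval_cases p
    · exact absurd hp (by norm_num)
    · exact absurd hp (by norm_num)
    · exact ⟨1, fun i => by rw [f_eval]; fin_cases i <;> norm_num [G]⟩

lemma hF (i : Fin 2) (n : ℕ) : ((f i).eval (n : ℤ)).natAbs = F i n := by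
  rw [f_eval]
  fin_cases i
  · show (1 * (n : ℤ) + 0).natAbs = n
    rw [show (1 * (n : ℤ) + 0) = ((n : ℕ) : ℤ) by push_cast; ring, Int.natAbs_natCast]
  · show (2 * (n : ℤ) + (-1)).natAbs = (2 * (n : ℤ) - 1).natAbs
    first
    | (congr 1; ring)
    | congr 1

lemma conv {P r : ℕ} {δ c C : ℝ} {B M H : ℕ} {R : ℕ → Prop} {N : ℝ}
    (h : Pool.Agent.X55.Fam.Both F P r δ c C B M H R N) : Bounds P r δ c C B M H R N := by
  unfold Pool.Agent.X55.Fam.Both at h
  simpa [Bounds, almost, primes, AlmostPrime, F, Pool.Agent.X55.Fam.Good, Fin.forall_fin_succ] using h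

lemma convA {η : ℝ} {M H y : ℕ} {R : ℕ → Prop} {N : ℝ}
    (h : Pool.Agent.X55.Fam.Asym F η M H y R N) : Rough η M H y R N := by
  unfold Pool.Agent.X55.Fam.Asym at h
  simpa [Rough, rough, V, F, Fin.forall_fin_succ, Fin.exists_fin_succ] using h

theorem result : (∀ (s k τ : ℕ) (c₀ : ℝ), 1 ≤ k → 0 < c₀ →
    (∀ B : ℕ, ∃ (r : ℕ) (δ c C : ℝ) (H₀ : ℕ), 0 < δ ∧ 0 < c ∧ 0 < C ∧
      ∀ H : ℕ, H₀ ≤ H → ∀ P : Fin s → ℝ[X], (∀ i, (P i).natDegree ≤ k) → FiniteType c₀ τ (fun i => (P i).coeff k) →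
      ∀ u ρ : Fin s → ℝ, (∀ i, (H : ℝ) ^ (-δ) ≤ ρ i ∧ ρ i ≤ 1) → ∀ M : ℕ,
      Bounds H r δ c C B M H (InBox P u ρ) (H * ∏ i, ρ i)) ∧
    (∀ η : ℝ, 0 < η → ∃ (δ : ℝ) (H₀ : ℕ), 0 < δ ∧
      ∀ H : ℕ, H₀ ≤ H → ∀ P : Fin s → ℝ[X], (∀ i, (P i).natDegree ≤ k) → FiniteType c₀ τ (fun i => (P i).coeff k) →
      ∀ u ρ : Fin s → ℝ, (∀ i, (H : ℝ) ^ (-δ) ≤ ρ i ∧ ρ i ≤ 1) → ∀ M y : ℕ, 3 ≤ y → (y : ℝ) ≤ (H : ℝ) ^ δ →
      Rough η M H y (InBox P u ρ) (H * ∏ i, ρ i))) ∧
    -- algebraic numbers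
    (∀ (s : ℕ) (α : Fin s → ℝ), (∀ i, IsAlgebraic ℚ (α i)) →
      (∀ (h : Fin s → ℤ) (a : ℤ), ∑ i, (h i : ℝ) * α i = a → h = 0) →
      ∃ (c₀ : ℝ) (τ : ℕ), 0 < c₀ ∧ FiniteType c₀ τ α) := by
  refine ⟨fun s k τ c₀ hk hc₀ => ⟨?_, ?_⟩, fun s α hα hind => Pool.Agent.X220.FP.liouville_vec s α hα hind⟩
  · intro B
    obtain ⟨r, δ, c, C, H₀, hδ, hc, hC, h⟩ := Pool.Agent.X220.FP.fp_both s k τ hk c₀ hc₀ f_sys F hF B
    exact ⟨r, δ, c, C, H₀, hδ, hc, hC, fun H hH P hP hFT u ρ hρ M => conv (h H hH P hP hFT u ρ hρ M)⟩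
  · intro η hη
    obtain ⟨δ, H₀, hδ, h⟩ := Pool.Agent.X220.FP.fp_asym s k τ hk c₀ hc₀ f_sys F hF η hη
    exact ⟨δ, H₀, hδ, fun H hH P hP hFT u ρ hρ M y hy hyH => convA (h H hH P hP hFT u ρ hρ M y hy hyH)⟩

end Pool.Agent.Results.MP_39a890_nt.FractionalParts
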