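import Mathlib
import Pool.Agent.X34.E.E30
import Pool.Agent.X34.E.E4

/-!
# The iterates of `q ↦ 2 q - 1` (and of `a p - b q = c`) in all windows around a positive proportion of the integers

The `j`-th iterate of `q ↦ 2 q - 1` is `q ↦ 2 ^ j (q - 1) + 1`; the question concerns `j = 1`. For all large `X` there is
one `j ≤ 44` such that around a positive proportion of the integers `x ≤ M X` ALL windows `(u, v]`, from the length
`K (log X) ^ 45` up to the length `x / 2`, contain at least `c (v - u) / (log X) ^ 45` primes `q` for which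
`2 ^ j (q - 1) + 1` is a prime. The same holds, with `j ≤ 106`, for the iterates
`a ^ j p - b ^ j q = c (a ^ (j-1) + a ^ (j-2) b + ... + b ^ (j-1))` of every equation `a p - b q = c` with pairwise coprime
`a, b ≥ 1`, `c ≠ 0`, not all odd, and with the differences `j` of any 45 numbers which miss a class modulo every prime
`3 ≤ p ≤ 43` with `p ∣ a - b`, `p ∤ c`.

The theorem rests on `dhl45R` (helper34, built on the starting library) and on the regular windows of the starting library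
(`Pool.Agent.W123.RU`).
-/

set_option autoImplicit false

open Finset Filter

namespace Pool.Agent.Results.MP_39a890_nt.IteratesInAllWindows

/-- `q` is a prime for which the `j`-th iterate `a ^ j p - b ^ j q = c (a ^ (j-1) + ... + b ^ (j-1))` of the
equation `a p - b q = c` has a solution in primes -/
def Sol (a b : ℕ) (c : ℤ) (j q : ℕ) : Prop :=
  q.Prime ∧ ∃ p : ℕ, p.Prime ∧
    (a : ℤ) ^ j * p - (b : ℤ) ^ j * q = c * ∑ i ∈ range j, (a : ℤ) ^ i * (b : ℤ) ^ (j - 1 - i)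

/-- all windows `(u, v]` with `u ≤ x ≤ v` and `K (log X) ^ 45 ≤ v - u ≤ x / 2` contain at least
`δ (v - u) / (log X) ^ 45` integers with the property `P` -/
def Windows (P : ℕ → Prop) (δ K : ℝ) (X x : ℕ) : Prop :=
  ∀ u v : ℕ, u ≤ x → x ≤ v → K * Real.log X ^ 45 ≤ (v : ℝ) - u → 2 * ((v : ℝ) - u) ≤ x →
    δ * (((v : ℝ) - u) / Real.log X ^ 45) ≤ (Set.ncard {q : ℕ | u < q ∧ q ≤ v ∧ P q} : ℝ)

/-- at least `κ X` integers `x` in `(X, M X]` have the property `Windows P` -/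
def Often (P : ℕ → Prop) (M : ℕ) (δ K κ : ℝ) (X : ℕ) : Prop :=
  κ * X ≤ (Set.ncard {x : ℕ | X < x ∧ x ≤ M * X ∧ Windows P δ K X x} : ℝ)

/-- (1) Let `a, b ≥ 1` and `c ≠ 0` be pairwise coprime and not all odd, and let `G` be a set of 45 natural numbers which
misses a class modulo every prime `3 ≤ p ≤ 43` with `p ∣ a - b`, `p ∤ c`. There are `M` and `δ, K, κ > 0` such that for
all large `X` there are `g < g'` in `G` with `Often (Sol a b c (g' - g))`. (2) The same with one of the exponents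
`j ≤ 106`, without `G`. (3) There are `M` and `δ, K, κ > 0` such that for all large `X` there is `j ≤ 44` with
`Often P`, where `P q` means that `q` and `2 ^ j (q - 1) + 1` are primes. -/
theorem result :
    (∀ (a b : ℕ) (c : ℤ), 0 < a → 0 < b → c ≠ 0 → a.Coprime b → IsCoprime (a : ℤ) c → IsCoprime (b : ℤ) c →
      ¬ (Odd a ∧ Odd b ∧ Odd c) →
      (∀ G : Finset ℕ, G.card = 45 → (∀ p : ℕ, p.Prime → 3 ≤ p → p ≤ 43 → (p : ℤ) ∣ (a : ℤ) - b →
          ¬ (p : ℤ) ∣ c → ∃ r : ℕ, ∀ g ∈ G, ¬ g ≡ r [MOD p]) →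
        ∃ (M : ℕ) (δ K κ : ℝ), 0 < δ ∧ 0 < K ∧ 0 < κ ∧ ∀ᶠ X : ℕ in atTop, ∃ g ∈ G, ∃ g' ∈ G, g < g' ∧
          Often (Sol a b c (g' - g)) M δ K κ X) ∧
      ∃ (M : ℕ) (δ K κ : ℝ), 0 < δ ∧ 0 < K ∧ 0 < κ ∧ ∀ᶠ X : ℕ in atTop, ∃ j : ℕ, 1 ≤ j ∧ j ≤ 106 ∧
        Often (Sol a b c j) M δ K κ X) ∧
    ∃ (M : ℕ) (δ K κ : ℝ), 0 < δ ∧ 0 < K ∧ 0 < κ ∧ ∀ᶠ X : ℕ in atTop, ∃ j : ℕ, 1 ≤ j ∧ j ≤ 44 ∧
      Often (fun q => q.Prime ∧ (2 ^ j * (q - 1) + 1).Prime) M δ K κ X := by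
  classical
  have gen : ∀ (a b : ℕ) (c : ℤ), 0 < a → 0 < b → c ≠ 0 → a.Coprime b → IsCoprime (a : ℤ) c →
      IsCoprime (b : ℤ) c → ¬ (Odd a ∧ Odd b ∧ Odd c) → ∀ G : Finset ℕ, G.card = 45 →
      (∀ p : ℕ, p.Prime → 3 ≤ p → p ≤ 43 → (p : ℤ) ∣ (a : ℤ) - b →
          ¬ (p : ℤ) ∣ c → ∃ r : ℕ, ∀ g ∈ G, ¬ g ≡ r [MOD p]) →
        ∃ (M : ℕ) (δ K κ : ℝ), 0 < δ ∧ 0 < K ∧ 0 < κ ∧ ∀ᶠ X : ℕ in atTop, ∃ g ∈ G, ∃ g' ∈ G, g < g' ∧
          Often (Sol a b c (g' - g)) M δ K κ X := by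
    intro a b c ha hb hc hab hac hbc hpar G hG hloc
    obtain ⟨M, δ, K, κ, hδ, hK, hκ, h⟩ := Pool.Agent.X34.E.chain_win Pool.Agent.X34.E.dhl45R a b c ha hb hc hab
      hac hbc hpar G hG hloc
    refine ⟨M, δ, K, κ, hδ, hK, hκ, ?_⟩
    filter_upwards [h] with X hX
    obtain ⟨g, hg, g', hg', hlt, hX⟩ := hX
    refine ⟨g, hg, g', hg', hlt, hX.trans ?_⟩
    rw [Nat.cast_le]
    apply Set.ncard_le_ncard
    · rintro x ⟨h1, h2, h3⟩
      exact ⟨h1, h2, fun u v hu hv h4 h5 => (h3 u v hu hv h4 h5).1⟩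
    · exact (Set.finite_Iic (M * X)).subset fun x hx => hx.2.1
  refine ⟨fun a b c ha hb hc hab hac hbc hpar => ⟨gen a b c ha hb hc hab hac hbc hpar, ?_⟩, ?_⟩
  · obtain ⟨M, δ, K, κ, hδ, hK, hκ, h⟩ := gen a b c ha hb hc hab hac hbc hpar _ Pool.Agent.X34.E.G45_card
      (fun p hp hp3 _ _ _ => Pool.Agent.X34.E.G45_loc p hp hp3)
    refine ⟨M, δ, K, κ, hδ, hK, hκ, ?_⟩
    filter_upwards [h] with X hX
    obtain ⟨g, hg, g', hg', hlt, hX⟩ := hX
    have := Pool.Agent.X34.E.G45_le g' hg'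
    exact ⟨g' - g, by omega, by omega, hX⟩
  · obtain ⟨M, δ, K, κ, hδ, hK, hκ, h⟩ := gen 1 2 (-1) one_pos two_pos (by norm_num) (by norm_num)
      (by rw [Nat.cast_one]; exact isCoprime_one_left) (by exact isCoprime_one_right.neg_right)
      (by rintro ⟨-, h2, -⟩; revert h2; decide) (range 45) (card_range 45)
      (by
        intro p hp hp3 _ hd _
        exfalso
        have h1 : (p : ℤ) ∣ 1 := by
          have h2 : (((1 : ℕ) : ℤ) - ((2 : ℕ) : ℤ)) = -1 := by norm_num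
          rw [h2, dvd_neg] at hd
          exact hd
        have h2 : p ∣ 1 := by exact_mod_cast h1
        have := Nat.le_of_dvd one_pos h2
        omega)
    refine ⟨M, δ, K, κ, hδ, hK, hκ, ?_⟩
    filter_upwards [h] with X hX
    obtain ⟨g, hg, g', hg', hlt, hX⟩ := hX
    have hg'2 := mem_range.1 hg'
    refine ⟨g' - g, by omega, by omega, hX.trans ?_⟩
    rw [Nat.cast_le]
    apply Set.ncard_le_ncard
    · rintro x ⟨h1, h2, h3⟩
      refine ⟨h1, h2, fun u v hu hv h4 h5 => (h3 u v hu hv h4 h5).trans ?_⟩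
      rw [Nat.cast_le]
      apply Set.ncard_le_ncard
      · rintro q ⟨h6, h7, h8, p, hp, hpe⟩
        refine ⟨h6, h7, h8, ?_⟩
        have hq1 := h8.one_le
        have hgeo : ∀ j : ℕ, ∑ i ∈ range j, ((1 : ℕ) : ℤ) ^ i * ((2 : ℕ) : ℤ) ^ (j - 1 - i) = 2 ^ j - 1 := by
          intro j
          have h9 : ∑ i ∈ range j, ((1 : ℕ) : ℤ) ^ i * ((2 : ℕ) : ℤ) ^ (j - 1 - i) =
              ∑ i ∈ range j, (2 : ℤ) ^ (j - 1 - i) := by
            apply sum_congr rfl
            intro i _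
            push_cast
            rw [one_pow, one_mul]
          rw [h9, sum_range_reflect (fun i => (2 : ℤ) ^ i) j]
          have h11 := mul_geom_sum (2 : ℤ) j
          linarith
        rw [hgeo] at hpe
        have h9 : (p : ℤ) = ((2 ^ (g' - g) * (q - 1) + 1 : ℕ) : ℤ) := by
          push_cast [Nat.cast_sub hq1]
          push_cast at hpe
          rw [one_pow, one_mul] at hpe
          linear_combination hpe
        have h10 : p = 2 ^ (g' - g) * (q - 1) + 1 := by exact_mod_cast h9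
        rw [← h10]
        exact hp
      · exact (Set.finite_Iic v).subset fun q hq => hq.2.1
    · exact (Set.finite_Iic (M * X)).subset fun x hx => hx.2.1

end Pool.Agent.Results.MP_39a890_nt.IteratesInAllWindows
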